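import Mathlib

/-! # Varieties of groups with countably many subvarieties and infinite descending chains -/

set_option autoImplicit false

namespace Pool.Agent.H643R2.VR

/-- fully invariant subgroups of the free group of countable rank -/
def FI (M : Subgroup (FreeGroup ℕ)) : Prop :=
  ∀ φ : FreeGroup ℕ →* FreeGroup ℕ, ∀ x ∈ M, φ x ∈ M

/-- the laws of a group -/
def laws (G : Type) [Group G] : Subgroup (FreeGroup ℕ) := ⨅ ψ : FreeGroup ℕ →* G, ψ.ker

theorem mem_laws {G : Type} [Group G] {w : FreeGroup ℕ} :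
    w ∈ laws G ↔ ∀ ψ : FreeGroup ℕ →* G, ψ w = 1 := by
  simp [laws, Subgroup.mem_iInf, MonoidHom.mem_ker]

theorem FI.normal {M : Subgroup (FreeGroup ℕ)} (h : FI M) : M.Normal :=
  ⟨fun x hx g => h (MulAut.conj g).toMonoidHom x hx⟩

theorem mem_sup_fi {H K : Subgroup (FreeGroup ℕ)} (hK : FI K) {x : FreeGroup ℕ} :
    x ∈ H ⊔ K ↔ ∃ a ∈ H, ∃ b ∈ K, a * b = x := by
  have := hK.normal
  rw [← SetLike.mem_coe, Subgroup.mul_normal, Set.mem_mul]
  rfl

theorem FI.sup {H K : Subgroup (FreeGroup ℕ)} (hH : FI H) (hK : FI K) : FI (H ⊔ K) := by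
  intro φ x hx
  obtain ⟨a, ha, b, hb, rfl⟩ := (mem_sup_fi hK).1 hx
  rw [map_mul]
  exact (mem_sup_fi hK).2 ⟨_, hH φ a ha, _, hK φ b hb, rfl⟩

theorem FI.inf {H K : Subgroup (FreeGroup ℕ)} (hH : FI H) (hK : FI K) : FI (H ⊓ K) :=
  fun φ x hx => ⟨hH φ x hx.1, hK φ x hx.2⟩

theorem FI.iInf {ι : Sort*} {f : ι → Subgroup (FreeGroup ℕ)} (h : ∀ i, FI (f i)) :
    FI (⨅ i, f i) := by
  intro φ x hx
  rw [Subgroup.mem_iInf] at hx ⊢
  exact fun i => h i φ x (hx i)

/-- retraction to the first `s` generators -/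
def pi (s : ℕ) : FreeGroup ℕ →* FreeGroup ℕ :=
  FreeGroup.lift (fun i => if i < s then FreeGroup.of i else 1)

theorem pi_pi {s t : ℕ} (h : s ≤ t) (w : FreeGroup ℕ) : pi t (pi s w) = pi s w := by
  have : (pi t).comp (pi s) = pi s := by
    ext i
    by_cases hi : i < s
    · have : i < t := lt_of_lt_of_le hi h
      simp [pi, hi, this]
    · simp [pi, hi]
  exact congrArg (fun f => f w) this

theorem exists_pi (w : FreeGroup ℕ) : ∃ s, ∀ t, s ≤ t → pi t w = w := by
  induction w using FreeGroup.induction_on with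
  | C1 => exact ⟨0, fun t _ => map_one _⟩
  | of i =>
    refine ⟨i + 1, fun t ht => ?_⟩
    have : i < t := ht
    simp [pi, this]
  | inv_of i h =>
    obtain ⟨s, hs⟩ := h
    exact ⟨s, fun t ht => by rw [map_inv, hs t ht]⟩
  | mul x y hx hy =>
    obtain ⟨s, hs⟩ := hx
    obtain ⟨t, ht⟩ := hy
    exact ⟨max s t, fun r hr => by
      rw [map_mul, hs r (le_trans (le_max_left _ _) hr), ht r (le_trans (le_max_right _ _) hr)]⟩

/-- the laws of the relatively free group of rank `s` -/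
def V (s : ℕ) (M : Subgroup (FreeGroup ℕ)) : Subgroup (FreeGroup ℕ) :=
  ⨅ φ : FreeGroup ℕ →* FreeGroup ℕ, M.comap ((pi s).comp φ)

theorem mem_V {s : ℕ} {M : Subgroup (FreeGroup ℕ)} {w : FreeGroup ℕ} :
    w ∈ V s M ↔ ∀ φ : FreeGroup ℕ →* FreeGroup ℕ, pi s (φ w) ∈ M := by
  simp [V, Subgroup.mem_iInf]

theorem V_fi (s : ℕ) (M : Subgroup (FreeGroup ℕ)) : FI (V s M) := by
  intro φ x hx
  rw [mem_V] at hx ⊢
  intro ψ
  exact hx (ψ.comp φ)

theorem le_V {s : ℕ} {M : Subgroup (FreeGroup ℕ)} (h : FI M) : M ≤ V s M := by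
  intro x hx
  rw [mem_V]
  intro φ
  exact h _ _ (h _ _ hx)

theorem V_mono {s : ℕ} {M M' : Subgroup (FreeGroup ℕ)} (h : M ≤ M') : V s M ≤ V s M' := by
  intro x hx
  rw [mem_V] at hx ⊢
  exact fun φ => h (hx φ)

theorem V_anti {s t : ℕ} (hst : s ≤ t) (M : Subgroup (FreeGroup ℕ)) : V t M ≤ V s M := by
  intro x hx
  rw [mem_V] at hx ⊢
  intro φ
  have := hx ((pi s).comp φ)
  rw [MonoidHom.comp_apply, pi_pi hst] at this
  exact this

theorem V_pi {s : ℕ} {M : Subgroup (FreeGroup ℕ)} {w : FreeGroup ℕ} (h : w ∈ V s M) :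
    pi s w ∈ M := mem_V.1 h (MonoidHom.id _)

/-- an infinite strictly increasing chain of fully invariant subgroups above `N` -/
def HasChain (N : Subgroup (FreeGroup ℕ)) : Prop :=
  ∃ f : ℕ → Subgroup (FreeGroup ℕ), StrictMono f ∧ ∀ n, N ≤ f n ∧ FI (f n)

theorem stab {N : Subgroup (FreeGroup ℕ)} (h : ¬ HasChain N)
    (g : ℕ → Subgroup (FreeGroup ℕ)) (hg : Monotone g) (hN : ∀ n, N ≤ g n ∧ FI (g n)) :
    ∃ n, ∀ m, n ≤ m → g m = g n := by
  by_contra hcon
  push Not at hcon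
  choose nx h1 h2 using hcon
  apply h
  refine ⟨fun k => g (nx^[k] 0), strictMono_nat_of_lt_succ ?_, fun k => hN _⟩
  intro k
  rw [Function.iterate_succ_apply']
  exact lt_of_le_of_ne (hg (h1 _)) (h2 _).symm

section

variable (N U : Subgroup (FreeGroup ℕ))

/-- consequences of the `s`-variable laws of `U` -/
def Uc (s : ℕ) : Subgroup (FreeGroup ℕ) :=
  sInf {L | FI L ∧ N ≤ L ∧ ∀ w ∈ U, pi s w ∈ L}

theorem Uc_fi (s : ℕ) : FI (Uc N U s) := by
  intro φ x hx
  rw [Uc, Subgroup.mem_sInf] at hx ⊢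
  exact fun L hL => hL.1 φ x (hx L hL)

theorem le_Uc (s : ℕ) : N ≤ Uc N U s := by
  intro x hx
  rw [Uc, Subgroup.mem_sInf]
  exact fun L hL => hL.2.1 hx

theorem pi_Uc (s : ℕ) {w : FreeGroup ℕ} (hw : w ∈ U) : pi s w ∈ Uc N U s := by
  rw [Uc, Subgroup.mem_sInf]
  exact fun L hL => hL.2.2 w hw

theorem Uc_le {s : ℕ} {L : Subgroup (FreeGroup ℕ)} (h1 : FI L) (h2 : N ≤ L)
    (h3 : ∀ w ∈ U, pi s w ∈ L) : Uc N U s ≤ L := by
  intro x hx
  rw [Uc, Subgroup.mem_sInf] at hx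
  exact hx L ⟨h1, h2, h3⟩

theorem Uc_mono (hU : FI U) : Monotone (Uc N U) := by
  intro s t hst
  apply Uc_le N U (Uc_fi N U t) (le_Uc N U t)
  intro w hw
  rw [← pi_pi hst w]
  exact pi_Uc N U t (hU _ _ hw)

end

/-- If no relatively free group of finite rank generates a subvariety with an infinite descending
chain, then an infinite descending chain gives an independent family of laws. -/
theorem family {N : Subgroup (FreeGroup ℕ)} (hch : HasChain N)
    (hV : ∀ s, ¬ HasChain (V s N)) :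
    ∃ (M : ℕ → Subgroup (FreeGroup ℕ)) (w : ℕ → FreeGroup ℕ),
      (∀ i, FI (M i) ∧ N ≤ M i) ∧ ∀ i j, w j ∈ M i ↔ i ≠ j := by
  obtain ⟨f, hf, hfN⟩ := hch
  have hfm := hf.monotone
  set U : Subgroup (FreeGroup ℕ) := ⨆ n, f n with hUdef
  have memU : ∀ w, w ∈ U ↔ ∃ n, w ∈ f n := by
    intro w
    rw [hUdef, Subgroup.mem_iSup_of_directed hfm.directed_le]
  have hU : FI U := by
    intro φ x hx
    obtain ⟨n, hn⟩ := (memU x).1 hx
    exact (memU _).2 ⟨n, (hfN n).2 φ x hn⟩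
  have hfU : ∀ n, f n ≤ U := fun n x hx => (memU x).2 ⟨n, hx⟩
  -- step 1
  have h1 : ∀ s, ∃ n, Uc N U s ≤ f n := by
    intro s
    obtain ⟨n, hn⟩ := stab (hV s) (fun n => f n ⊔ V s N)
      (fun a b hab => sup_le_sup_right (hfm hab) _)
      (fun n => ⟨le_sup_right, (hfN n).2.sup (V_fi s N)⟩)
    refine ⟨n, Uc_le N U (hfN n).2 (hfN n).1 ?_⟩
    intro w hw
    obtain ⟨m, hm⟩ := (memU w).1 hw
    have h2 : w ∈ f (max n m) ⊔ V s N :=
      (le_sup_left : f (max n m) ≤ _) (hfm (le_max_right n m) hm)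
    have h3 : w ∈ f n ⊔ V s N := by
      rw [← hn (max n m) (le_max_left _ _)]
      exact h2
    obtain ⟨a, ha, b, hb, rfl⟩ := (mem_sup_fi (V_fi s N)).1 h3
    rw [map_mul]
    exact (f n).mul_mem ((hfN n).2 _ _ ha) ((hfN n).1 (V_pi hb))
  -- step 2
  have h2 : ∀ t, ∃ s, t ≤ s ∧ ∃ w ∈ U, pi (s + 1) w ∉ Uc N U s := by
    intro t
    by_contra hcon
    push Not at hcon
    have h3 : ∀ k, Uc N U (t + k) ≤ Uc N U t := by
      intro k
      induction k with
      | zero => exact le_refl _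
      | succ k ih =>
        refine le_trans ?_ ih
        exact Uc_le N U (Uc_fi N U _) (le_Uc N U _) (hcon (t + k) (Nat.le_add_right _ _))
    have h4 : U ≤ Uc N U t := by
      intro w hw
      obtain ⟨r, hr⟩ := exists_pi w
      have h5 := pi_Uc N U (t + r) hw
      rw [hr _ (Nat.le_add_left _ _)] at h5
      exact h3 r h5
    obtain ⟨n, hn⟩ := h1 t
    exact absurd ((hfU (n + 1)).trans (h4.trans hn)) (not_le_of_gt (hf (Nat.lt_succ_self n)))
  -- the laws
  let MM : ℕ → Subgroup (FreeGroup ℕ) := fun s => V (s + 1) (Uc N U s)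
  have hMM : ∀ s, FI (MM s) ∧ Uc N U s ≤ MM s := fun s => ⟨V_fi _ _, le_V (Uc_fi N U s)⟩
  have pick : ∀ p : {p : Subgroup (FreeGroup ℕ) × ℕ // FI p.1 ∧ ∃ S, V S N ≤ p.1},
      ∃ q : ℕ × FreeGroup ℕ, p.1.2 ≤ q.1 ∧ q.2 ∈ U ∧ q.2 ∈ p.1.1 ∧ pi (q.1 + 1) q.2 = q.2 ∧
        q.2 ∉ MM q.1 := by
    rintro ⟨⟨R, t⟩, hR, S, hS⟩
    simp only at hR hS ⊢
    obtain ⟨t0, ht0⟩ := stab (hV S) (fun s => R ⊔ Uc N U s)
      (fun a b hab => sup_le_sup_left (Uc_mono N U hU hab) _)
      (fun n => ⟨hS.trans le_sup_left, hR.sup (Uc_fi N U n)⟩)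
    obtain ⟨s, hs, u, hu, hus⟩ := h2 (max t t0)
    set b := pi (s + 1) u with hb
    have hbU : b ∈ U := hU _ _ hu
    have hbb : pi (s + 1) b = b := pi_pi (le_refl _) u
    have h3 : b ∈ R ⊔ Uc N U s := by
      have e1 := ht0 s (le_trans (le_max_right _ _) hs)
      have e2 := ht0 (s + 1) (le_trans (le_trans (le_max_right _ _) hs) (Nat.le_succ s))
      rw [e1, ← e2]
      exact (le_sup_right : Uc N U (s + 1) ≤ _) (pi_Uc N U (s + 1) hu)
    obtain ⟨r, hr, v, hv, hrv⟩ := (mem_sup_fi (Uc_fi N U s)).1 h3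
    have hpv : pi (s + 1) v ∈ Uc N U s := Uc_fi N U s _ _ hv
    have hUcU : Uc N U s ≤ U := Uc_le N U hU ((hfN 0).1.trans (hfU 0)) (fun w hw => hU _ _ hw)
    have e : pi (s + 1) r * pi (s + 1) v = b := by rw [← map_mul, hrv, hbb]
    refine ⟨(s, pi (s + 1) r), le_trans (le_max_left _ _) hs, ?_, hR _ _ hr,
      pi_pi (le_refl _) r, ?_⟩
    · have : pi (s + 1) r = b * (pi (s + 1) v)⁻¹ := by rw [← e, mul_inv_cancel_right]
      show pi (s + 1) r ∈ U
      rw [this]
      exact U.mul_mem hbU (U.inv_mem (hUcU hpv))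
    · intro h
      have h4 := V_pi h
      simp only [pi_pi (le_refl (s + 1))] at h4
      apply hus
      rw [← e]
      exact (Uc N U s).mul_mem h4 hpv
  choose q hq using pick
  have nxt : ∀ p : {p : Subgroup (FreeGroup ℕ) × ℕ // FI p.1 ∧ ∃ S, V S N ≤ p.1},
      FI (p.1.1 ⊓ MM (q p).1, (q p).1 + 1).1 ∧ ∃ S, V S N ≤ (p.1.1 ⊓ MM (q p).1, (q p).1 + 1).1 := by
    rintro p
    refine ⟨p.2.1.inf (hMM _).1, ?_⟩
    obtain ⟨S, hS⟩ := p.2.2
    refine ⟨max S ((q p).1 + 1), le_inf ((V_anti (le_max_left _ _) N).trans hS) ?_⟩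
    exact (V_anti (le_max_right _ _) N).trans (V_mono (le_Uc N U _))
  let st : ℕ → {p : Subgroup (FreeGroup ℕ) × ℕ // FI p.1 ∧ ∃ S, V S N ≤ p.1} :=
    fun k => Nat.rec ⟨(⊤, 0), fun _ _ _ => trivial, 0, le_top⟩
      (fun _ p => ⟨(p.1.1 ⊓ MM (q p).1, (q p).1 + 1), nxt p⟩) k
  have st_succ : ∀ k, (st (k + 1)).1 = ((st k).1.1 ⊓ MM (q (st k)).1, (q (st k)).1 + 1) :=
    fun k => rfl
  have key : ∀ i j, i < j → (st j).1.1 ≤ MM (q (st i)).1 ∧ (q (st i)).1 + 1 ≤ (st j).1.2 := by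
    intro i j hij
    induction j with
    | zero => omega
    | succ j ih =>
      rw [st_succ]
      rcases Nat.lt_succ_iff_lt_or_eq.1 hij with h | h
      · obtain ⟨a, b⟩ := ih h
        refine ⟨inf_le_left.trans a, ?_⟩
        have := (hq (st j)).1
        show (q (st i)).1 + 1 ≤ (q (st j)).1 + 1
        omega
      · subst h
        exact ⟨inf_le_right, le_refl _⟩
  refine ⟨fun i => MM (q (st i)).1, fun j => (q (st j)).2,
    fun i => ⟨(hMM _).1, (le_Uc N U _).trans (hMM _).2⟩, ?_⟩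
  intro i j
  constructor
  · rintro h rfl
    exact (hq (st i)).2.2.2.2 h
  · intro hij
    rcases Nat.lt_or_gt_of_ne hij with h | h
    · exact (key i j h).1 (hq (st j)).2.2.1
    · -- j < i
      have h3 := (key j i h).2
      have h4 := (hq (st i)).1
      have h5 : (q (st j)).2 ∈ Uc N U ((q (st j)).1 + 1) := by
        have := pi_Uc N U ((q (st j)).1 + 1) (hq (st j)).2.1
        rwa [(hq (st j)).2.2.2.1] at this
      exact (hMM _).2 (Uc_mono N U hU (h3.trans h4) h5)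

theorem exists_injective {N : Subgroup (FreeGroup ℕ)} (hch : HasChain N)
    (hV : ∀ s, ¬ HasChain (V s N)) :
    ∃ g : Set ℕ → {M : Subgroup (FreeGroup ℕ) // FI M ∧ N ≤ M}, Function.Injective g := by
  obtain ⟨M, w, h1, h2⟩ := family hch hV
  let g : Set ℕ → {M : Subgroup (FreeGroup ℕ) // FI M ∧ N ≤ M} := fun S =>
    ⟨⨅ i : S, M i.1, FI.iInf (fun i => (h1 i.1).1), le_iInf (fun i => (h1 i.1).2)⟩
  refine ⟨g, ?_⟩
  intro S S' h
  have h3 : (⨅ i : S, M i.1) = ⨅ i : S', M i.1 := congrArg Subtype.val h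
  have h4 : ∀ (S : Set ℕ) j, w j ∈ (⨅ i : S, M i.1) ↔ j ∉ S := by
    intro S j
    rw [Subgroup.mem_iInf]
    constructor
    · intro h hj
      exact (h2 j j).1 (h ⟨j, hj⟩) rfl
    · intro hj i
      apply (h2 i.1 j).2
      rintro h
      exact hj (h ▸ i.2)
  ext j
  have := h4 S j
  rw [h3, h4 S' j] at this
  tauto

theorem mk_eq_continuum {N : Subgroup (FreeGroup ℕ)} (hch : HasChain N)
    (hV : ∀ s, ¬ HasChain (V s N)) :
    Cardinal.mk {M : Subgroup (FreeGroup ℕ) // FI M ∧ N ≤ M} = Cardinal.continuum := by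
  apply le_antisymm
  · have h1 : Cardinal.mk {M : Subgroup (FreeGroup ℕ) // FI M ∧ N ≤ M} ≤
        Cardinal.mk (Set (FreeGroup ℕ)) := by
      apply Cardinal.mk_le_of_injective
        (f := fun M : {M : Subgroup (FreeGroup ℕ) // FI M ∧ N ≤ M} => (M.1 : Set (FreeGroup ℕ)))
      intro a b h
      exact Subtype.ext (SetLike.coe_injective h)
    refine h1.trans ?_
    have h2 : Countable (FreeGroup ℕ) := (FreeGroup.toWord_injective (α := ℕ)).countable
    rw [Cardinal.mk_set, Cardinal.continuum]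
    exact Cardinal.power_le_power_left two_ne_zero Cardinal.mk_le_aleph0
  · obtain ⟨g, hg⟩ := exists_injective hch hV
    have := Cardinal.mk_le_of_injective hg
    rwa [Cardinal.mk_set, Cardinal.mk_nat, Cardinal.two_power_aleph0] at this

theorem exists_rank {N : Subgroup (FreeGroup ℕ)}
    (hc : {M : Subgroup (FreeGroup ℕ) | FI M ∧ N ≤ M}.Countable) (hch : HasChain N) :
    ∃ s, HasChain (V s N) := by
  by_contra hcon
  push Not at hcon
  obtain ⟨g, hg⟩ := exists_injective hch hcon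
  have hcc : Countable {M : Subgroup (FreeGroup ℕ) // FI M ∧ N ≤ M} := hc.to_subtype
  have : Countable (Set ℕ) := hg.countable
  obtain ⟨e, he⟩ := exists_surjective_nat (Set ℕ)
  exact Function.cantor_surjective e he

/-- `V s N` is the set of laws of an `s`-generator group -/
theorem V_eq_laws {N : Subgroup (FreeGroup ℕ)} (hN : FI N) (s : ℕ) :
    ∃ (G : Type) (_ : Group G), Group.FG G ∧ laws G = V s N := by
  have hn : (N.comap (pi s)).Normal := by
    have := hN.normal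
    infer_instance
  refine ⟨FreeGroup ℕ ⧸ N.comap (pi s), inferInstance, ?_, ?_⟩
  · let a : FreeGroup (Fin s) →* FreeGroup ℕ := FreeGroup.lift (fun i => FreeGroup.of i.1)
    let ρ : FreeGroup ℕ →* FreeGroup (Fin s) :=
      FreeGroup.lift (fun i => if h : i < s then FreeGroup.of ⟨i, h⟩ else 1)
    have har : ∀ w, a (ρ w) = pi s w := by
      have : a.comp ρ = pi s := by
        ext i
        by_cases hi : i < s
        · simp [a, ρ, pi, hi]
        · simp [a, ρ, pi, hi]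
      intro w
      exact congrArg (fun f => f w) this
    apply Group.fg_of_surjective (f := (QuotientGroup.mk' (N.comap (pi s))).comp a)
    intro x
    obtain ⟨w, rfl⟩ := QuotientGroup.mk'_surjective _ x
    refine ⟨ρ w, ?_⟩
    rw [MonoidHom.comp_apply, har]
    apply (QuotientGroup.eq).2
    rw [Subgroup.mem_comap, map_mul, map_inv, pi_pi (le_refl s), inv_mul_cancel]
    exact N.one_mem
  · ext w
    rw [mem_laws, mem_V]
    constructor
    · intro h φ
      have h1 := h ((QuotientGroup.mk' (N.comap (pi s))).comp φ)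
      rw [MonoidHom.comp_apply, QuotientGroup.mk'_apply, QuotientGroup.eq_one_iff] at h1
      exact h1
    · intro h ψ
      -- lift ψ
      let c : ℕ → FreeGroup ℕ := fun i => (QuotientGroup.mk'_surjective _ (ψ (FreeGroup.of i))).choose
      have hc : ∀ i, QuotientGroup.mk' (N.comap (pi s)) (c i) = ψ (FreeGroup.of i) :=
        fun i => (QuotientGroup.mk'_surjective _ (ψ (FreeGroup.of i))).choose_spec
      have e : (QuotientGroup.mk' (N.comap (pi s))).comp (FreeGroup.lift c) = ψ := by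
        ext i
        simp only [MonoidHom.comp_apply, FreeGroup.lift_apply_of]
        exact hc i
      rw [← e, MonoidHom.comp_apply, QuotientGroup.mk'_apply, QuotientGroup.eq_one_iff]
      exact h (FreeGroup.lift c)

end Pool.Agent.H643R2.VR
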