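import Mathlib
import Pool.Agent.H643R2.VR.Main

/-! # Nilpotent varieties satisfy the descending chain condition (Lyndon) -/

set_option autoImplicit false

namespace Pool.Agent.H643R2.VR

open Subgroup
open scoped commutatorElement

/-- lower central series of the free group of countable rank -/
def Gam (n : ℕ) : Subgroup (FreeGroup ℕ) := (⊤ : Subgroup (FreeGroup ℕ)).lowerCentralSeries n

theorem Gam_fi (n : ℕ) : FI (Gam n) := by
  intro φ x hx
  have h1 : φ x ∈ (Gam n).map φ := Subgroup.mem_map_of_mem φ hx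
  rw [Gam, Subgroup.map_lowerCentralSeries] at h1
  exact Subgroup.lowerCentralSeries_mono n le_top h1

theorem Gam_succ_le (n : ℕ) : Gam (n + 1) ≤ Gam n :=
  Subgroup.lowerCentralSeries_antitone _ (Nat.le_succ n)

theorem comm_mem {n : ℕ} {a : FreeGroup ℕ} (b : FreeGroup ℕ) (ha : a ∈ Gam n) :
    ⁅a, b⁆ ∈ Gam (n + 1) :=
  Subgroup.commutator_mem_commutator ha (Subgroup.mem_top b)

instance (n : ℕ) : (Gam n).Normal := (Gam_fi n).normal

/-- left-normed commutators of generators -/
def Cm : ℕ → Set (FreeGroup ℕ)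
  | 0 => Set.range FreeGroup.of
  | n + 1 => {x | ∃ c ∈ Cm n, ∃ i : ℕ, x = ⁅c, FreeGroup.of i⁆}

theorem Cm_sub (n : ℕ) : Cm n ⊆ Gam n := by
  induction n with
  | zero => exact fun x _ => Subgroup.mem_top x
  | succ n ih =>
    rintro x ⟨c, hc, i, rfl⟩
    exact comm_mem _ (ih hc)

theorem commute_mk {K : Subgroup (FreeGroup ℕ)} [K.Normal] {c : FreeGroup ℕ}
    (h : ∀ i : ℕ, ⁅c, FreeGroup.of i⁆ ∈ K) (q : FreeGroup ℕ) :
    Commute (QuotientGroup.mk' K c) (QuotientGroup.mk' K q) := by
  induction q using FreeGroup.induction_on with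
  | C1 => rw [map_one]; exact Commute.one_right _
  | of i =>
    rw [← commutatorElement_eq_one_iff_commute, ← map_commutatorElement, QuotientGroup.mk'_apply,
      QuotientGroup.eq_one_iff]
    exact h i
  | inv_of i h => rw [map_inv]; exact h.inv_right
  | mul x y hx hy => rw [map_mul]; exact hx.mul_right hy

theorem gen (n : ℕ) : Gam n ≤ closure (Cm n) ⊔ Gam (n + 1) := by
  induction n with
  | zero =>
    have : closure (Cm 0) = ⊤ := FreeGroup.closure_range_of ℕ
    rw [this, top_sup_eq]
    exact le_top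
  | succ n ih =>
    have hKle : closure (Cm (n + 1)) ⊔ Gam (n + 2) ≤ Gam (n + 1) :=
      sup_le ((closure_le _).2 (Cm_sub _)) (Gam_succ_le _)
    have hg : Gam (n + 2) ≤ closure (Cm (n + 1)) ⊔ Gam (n + 2) := le_sup_right
    have hC : Cm (n + 1) ⊆ (closure (Cm (n + 1)) ⊔ Gam (n + 2) : Subgroup (FreeGroup ℕ)) :=
      fun x hx => (le_sup_left : closure (Cm (n + 1)) ≤ _) (subset_closure hx)
    generalize closure (Cm (n + 1)) ⊔ Gam (n + 2) = K at *
    have hKn : K.Normal := by
      constructor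
      intro x hx g
      have : g * x * g⁻¹ = ⁅x, g⁆⁻¹ * x := by
        simp [commutatorElement_def, mul_assoc]
      rw [this]
      exact K.mul_mem (K.inv_mem (hg (comm_mem _ (hKle hx)))) hx
    have h1 : closure (Cm n) ⊔ Gam (n + 1) ≤ (center (FreeGroup ℕ ⧸ K)).comap
        (QuotientGroup.mk' K) := by
      apply sup_le
      · rw [closure_le]
        intro c hc
        rw [SetLike.mem_coe, mem_comap, mem_center_iff]
        intro y
        obtain ⟨q, rfl⟩ := QuotientGroup.mk'_surjective K y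
        exact (commute_mk (fun i => hC ⟨c, hc, i, rfl⟩) q).symm
      · intro c hc
        rw [mem_comap, mem_center_iff]
        intro y
        obtain ⟨q, rfl⟩ := QuotientGroup.mk'_surjective K y
        exact (commute_mk (fun i => hg (comm_mem _ hc)) q).symm
    refine Subgroup.commutator_le.2 ?_
    intro p hp q _
    have h2 := ih.trans h1 hp
    rw [mem_comap, mem_center_iff] at h2
    rw [← QuotientGroup.eq_one_iff, ← QuotientGroup.mk'_apply, map_commutatorElement,
      commutatorElement_eq_one_iff_commute]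
    exact (h2 _).symm

/-- deletion of a variable -/
def del (i : ℕ) : FreeGroup ℕ →* FreeGroup ℕ :=
  FreeGroup.lift (fun j => if j = i then 1 else FreeGroup.of j)

/-- restriction to a finite set of variables -/
def keep (T : Finset ℕ) : FreeGroup ℕ →* FreeGroup ℕ :=
  FreeGroup.lift (fun j => if j ∈ T then FreeGroup.of j else 1)

theorem del_comm (i j : ℕ) (w : FreeGroup ℕ) : del i (del j w) = del j (del i w) := by
  have : (del i).comp (del j) = (del j).comp (del i) := by
    ext k
    simp only [MonoidHom.comp_apply, del, FreeGroup.lift_apply_of]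
    split_ifs <;> simp_all
  exact congrArg (fun f => f w) this

theorem keep_del (T : Finset ℕ) (i : ℕ) (w : FreeGroup ℕ) :
    keep (T.erase i) (del i w) = del i (keep T w) := by
  have : (keep (T.erase i)).comp (del i) = (del i).comp (keep T) := by
    ext k
    simp only [MonoidHom.comp_apply, del, keep, FreeGroup.lift_apply_of]
    split_ifs <;> simp_all
  exact congrArg (fun f => f w) this

/-- iterated differences -/
def dl : List ℕ → FreeGroup ℕ → FreeGroup ℕ
  | [], w => w
  | i :: L, w => dl L (w * (del i w)⁻¹)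

theorem of_dl {M : Subgroup (FreeGroup ℕ)} (hM : FI M) (L : List ℕ) :
    ∀ w, (∀ i ∈ L, del i w ∈ M) → dl L w ∈ M → w ∈ M := by
  induction L with
  | nil => exact fun w _ h => h
  | cons i L ih =>
    intro w h1 h2
    have hi : del i w ∈ M := h1 i (by simp)
    have h3 : w * (del i w)⁻¹ ∈ M := by
      apply ih _ _ h2
      intro j hj
      rw [map_mul, map_inv]
      exact M.mul_mem (h1 j (by simp [hj])) (M.inv_mem (hM _ _ hi))
    have := M.mul_mem h3 hi
    rwa [inv_mul_cancel_right] at this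

theorem dl_one (L : List ℕ) : dl L 1 = 1 := by
  induction L with
  | nil => rfl
  | cons i L ih => rw [dl, map_one, inv_one, mul_one, ih]

theorem dl_fix (L : List ℕ) (j : ℕ) (hj : j ∈ L) : ∀ w, del j w = w → dl L w = 1 := by
  induction L with
  | nil => simp at hj
  | cons i L ih =>
    intro w hw
    rw [dl]
    by_cases h : j = i
    · subst h
      rw [hw, mul_inv_cancel, dl_one]
    · apply ih (by simpa [h] using hj)
      rw [map_mul, map_inv, del_comm, hw]

theorem dl_congr {K : Subgroup (FreeGroup ℕ)} [K.Normal] (hK : FI K) (L : List ℕ) :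
    ∀ a b, QuotientGroup.mk' K a = QuotientGroup.mk' K b →
      QuotientGroup.mk' K (dl L a) = QuotientGroup.mk' K (dl L b) := by
  induction L with
  | nil => exact fun a b h => h
  | cons i L ih =>
    intro a b h
    apply ih
    have h2 : QuotientGroup.mk' K (del i a) = QuotientGroup.mk' K (del i b) := by
      rw [QuotientGroup.mk'_apply, QuotientGroup.mk'_apply, QuotientGroup.eq] at h ⊢
      rw [← map_inv, ← map_mul]
      exact hK _ _ h
    rw [map_mul, map_mul, map_inv, map_inv, h, h2]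

theorem central {n : ℕ} {a : FreeGroup ℕ} (ha : a ∈ Gam n) (b : FreeGroup ℕ) :
    Commute (QuotientGroup.mk' (Gam (n + 1)) a) (QuotientGroup.mk' (Gam (n + 1)) b) :=
  commute_mk (fun _ => comm_mem _ ha) b

theorem dl_mul {n : ℕ} (L : List ℕ) : ∀ a b, a ∈ Gam n → b ∈ Gam n →
    QuotientGroup.mk' (Gam (n + 1)) (dl L (a * b)) =
      QuotientGroup.mk' (Gam (n + 1)) (dl L a) * QuotientGroup.mk' (Gam (n + 1)) (dl L b) := by
  induction L with
  | nil => exact fun a b _ _ => map_mul _ _ _
  | cons i L ih =>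
    intro a b ha hb
    have hda : a * (del i a)⁻¹ ∈ Gam n := mul_mem ha (inv_mem (Gam_fi n _ _ ha))
    have hdb : b * (del i b)⁻¹ ∈ Gam n := mul_mem hb (inv_mem (Gam_fi n _ _ hb))
    show QuotientGroup.mk' (Gam (n + 1)) (dl L (a * b * (del i (a * b))⁻¹)) = _
    rw [dl_congr (Gam_fi (n + 1)) L (a * b * (del i (a * b))⁻¹)
      ((a * (del i a)⁻¹) * (b * (del i b)⁻¹)) ?_, ih _ _ hda hdb]
    · rfl
    · have e : a * b * (del i (a * b))⁻¹ = a * (b * (del i b)⁻¹) * (del i a)⁻¹ := by
        rw [map_mul, mul_inv_rev]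
        simp only [mul_assoc]
      have c := (central hdb (del i a)⁻¹).eq
      rw [e, map_mul, map_mul _ a, mul_assoc, c, ← mul_assoc, ← map_mul, ← map_mul]

theorem Cm_supp (n : ℕ) : ∀ c ∈ Cm n, ∃ S : Finset ℕ, S.card ≤ n + 1 ∧ ∀ j ∉ S, del j c = c := by
  induction n with
  | zero =>
    rintro c ⟨i, rfl⟩
    refine ⟨{i}, by simp, ?_⟩
    intro j hj
    have : i ≠ j := fun h => hj (by simp [h])
    simp [del, this]
  | succ n ih =>
    rintro x ⟨c, hc, i, rfl⟩
    obtain ⟨S, h1, h2⟩ := ih c hc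
    refine ⟨insert i S, (Finset.card_insert_le _ _).trans (by omega), ?_⟩
    intro j hj
    rw [Finset.mem_insert, not_or] at hj
    rw [map_commutatorElement, h2 j hj.2]
    have : i ≠ j := fun h => hj.1 h.symm
    simp [del, this]

theorem dl_mem {n : ℕ} (L : List ℕ) (hL : L.Nodup) (hlen : n + 2 ≤ L.length) {w : FreeGroup ℕ}
    (hw : w ∈ Gam n) : dl L w ∈ Gam (n + 1) := by
  let E : Subgroup (FreeGroup ℕ) :=
    { carrier := {w | w ∈ Gam n ∧ QuotientGroup.mk' (Gam (n + 1)) (dl L w) = 1}
      one_mem' := ⟨one_mem _, by rw [dl_one, map_one]⟩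
      mul_mem' := by
        rintro a b ⟨ha, ha'⟩ ⟨hb, hb'⟩
        exact ⟨mul_mem ha hb, by rw [dl_mul L a b ha hb, ha', hb', mul_one]⟩
      inv_mem' := by
        rintro a ⟨ha, ha'⟩
        refine ⟨inv_mem ha, ?_⟩
        have := dl_mul L a⁻¹ a (inv_mem ha) ha
        rw [inv_mul_cancel, dl_one, map_one, ha', mul_one] at this
        exact this.symm }
  have h1 : closure (Cm n) ⊔ Gam (n + 1) ≤ E := by
    apply sup_le
    · rw [closure_le]
      intro c hc
      refine ⟨Cm_sub n hc, ?_⟩
      obtain ⟨S, hS, hS2⟩ := Cm_supp n c hc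
      have : ∃ j ∈ L, j ∉ S := by
        by_contra hcon
        push Not at hcon
        have h3 : L.toFinset ⊆ S := fun j hj => hcon j (List.mem_toFinset.1 hj)
        have h4 := Finset.card_le_card h3
        rw [List.toFinset_card_of_nodup hL] at h4
        omega
      obtain ⟨j, hj, hjS⟩ := this
      rw [dl_fix L j hj c (hS2 j hjS), map_one]
    · intro z hz
      refine ⟨Gam_succ_le n hz, ?_⟩
      rw [dl_congr (Gam_fi (n + 1)) L z 1 ?_, dl_one, map_one]
      rw [map_one, QuotientGroup.mk'_apply, QuotientGroup.eq_one_iff]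
      exact hz
  have h2 := (gen n).trans h1 hw
  have h3 := h2.2
  rwa [QuotientGroup.mk'_apply, QuotientGroup.eq_one_iff] at h3

/-- laws of weight `n + 1` modulo laws of weight `n + 2` need at most `n + 1` variables -/
theorem inf_V_le {n : ℕ} {M : Subgroup (FreeGroup ℕ)} (hM : FI M) (hG : Gam (n + 1) ≤ M)
    (T : Finset ℕ) : ∀ w, w ∈ Gam n → w ∈ V (n + 1) M → keep T w = w → w ∈ M := by
  induction T using Finset.strongInduction with
  | H T ih =>
    intro w hw hV hk
    by_cases hc : T.card ≤ n + 1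
    · let σ : FreeGroup ℕ →* FreeGroup ℕ :=
        FreeGroup.lift (fun i => if h : i ∈ T then FreeGroup.of (T.equivFin ⟨i, h⟩ : ℕ) else 1)
      let τ : FreeGroup ℕ →* FreeGroup ℕ :=
        FreeGroup.lift (fun k => if h : k < T.card then FreeGroup.of (T.equivFin.symm ⟨k, h⟩).1 else 1)
      have h1 : (τ.comp (pi (n + 1))).comp σ = keep T := by
        ext i
        by_cases hi : i ∈ T
        · have h2 : (T.equivFin ⟨i, hi⟩ : ℕ) < n + 1 := lt_of_lt_of_le (T.equivFin ⟨i, hi⟩).2 hc
          have h2' : (T.equivFin ⟨i, hi⟩ : ℕ) ≤ n := Nat.lt_succ_iff.1 h2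
          simp [τ, σ, pi, keep, hi, h2']
        · simp [σ, keep, hi]
      have h3 : τ (pi (n + 1) (σ w)) = w := by
        rw [← MonoidHom.comp_apply, ← MonoidHom.comp_apply, h1, hk]
      rw [← h3]
      exact hM τ _ (mem_V.1 hV σ)
    · push Not at hc
      apply of_dl hM T.toList w
      · intro i hi
        rw [Finset.mem_toList] at hi
        apply ih (T.erase i) (Finset.erase_ssubset hi) (del i w) (Gam_fi n _ _ hw)
          (V_fi _ _ _ _ hV)
        rw [keep_del, hk]
      · apply hG
        apply dl_mem _ T.nodup_toList _ hw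
        rw [Finset.length_toList]
        omega

theorem fg_stab {Q : Type} [Group Q] (T : Set Q) (hT : T.Finite) (hTc : T ⊆ center Q)
    (g : ℕ → Subgroup Q) (hg : Monotone g) :
    ∃ k0, ∀ m, k0 ≤ m → ∀ x ∈ closure T, x ∈ g m → x ∈ g k0 := by
  let T' : Set (center Q) := Subtype.val ⁻¹' T
  have hT' : T'.Finite := hT.preimage Subtype.val_injective.injOn
  let B : Subgroup (center Q) := closure T'
  have hB : Group.FG B := (Group.fg_iff_subgroup_fg B).2 ⟨hT'.toFinset, by simp [B]⟩
  let ρ : B →* Q := (center Q).subtype.comp B.subtype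
  let hCB : CommGroup B :=
    { (inferInstance : Group B) with
      mul_comm := fun a b => Subtype.ext (Subtype.ext (mem_center_iff.1 b.1.2 a.1.1)) }
  have : Module.Finite ℤ (Additive B) := Module.Finite.iff_addGroup_fg.2 (GroupFG.iff_add_fg.1 hB)
  have hN : IsNoetherian ℤ (Additive B) := inferInstance
  let h : ℕ →o Submodule ℤ (Additive B) :=
    ⟨fun k => AddSubgroup.toIntSubmodule (Subgroup.toAddSubgroup ((g k).comap ρ)), by
      intro a b hab x hx
      exact hg hab hx⟩
  obtain ⟨k0, hk0⟩ := monotone_stabilizes_iff_noetherian.2 hN h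
  refine ⟨k0, fun m hm x hx hxm => ?_⟩
  have h1 : closure T ≤ ρ.range := by
    rw [closure_le]
    intro t ht
    exact ⟨⟨⟨t, hTc ht⟩, subset_closure ht⟩, rfl⟩
  obtain ⟨b, rfl⟩ := h1 hx
  have h2 : Additive.ofMul b ∈ h m := hxm
  rw [← hk0 m hm] at h2
  exact h2

theorem pi_Cm_finite (s n : ℕ) : (pi s '' Cm n).Finite := by
  have h0 : (Set.range (fun i : ℕ => pi s (FreeGroup.of i))).Finite := by
    apply ((Set.finite_Iio s).image (fun i : ℕ => (FreeGroup.of i : FreeGroup ℕ))).union
      (Set.finite_singleton (1 : FreeGroup ℕ)) |>.subset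
    rintro x ⟨i, rfl⟩
    by_cases hi : i < s
    · left
      exact ⟨i, hi, by simp [pi, hi]⟩
    · right
      simp [pi, hi]
  induction n with
  | zero =>
    apply h0.subset
    rintro x ⟨_, ⟨i, rfl⟩, rfl⟩
    exact ⟨i, rfl⟩
  | succ n ih =>
    apply (Set.Finite.image2 (fun a b => ⁅a, b⁆) ih h0).subset
    rintro x ⟨_, ⟨c, hc, i, rfl⟩, rfl⟩
    exact ⟨pi s c, ⟨c, hc, rfl⟩, _, ⟨i, rfl⟩, (map_commutatorElement _ _ _).symm⟩

theorem not_hasChain_Gam (n : ℕ) : ¬ HasChain (Gam n) := by
  induction n with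
  | zero =>
    rintro ⟨f, hf, hfN⟩
    have h1 : f 1 ≤ f 0 := le_trans le_top (hfN 0).1
    exact absurd h1 (not_le_of_gt (hf (by norm_num)))
  | succ n ih =>
    rintro ⟨f, hf, hfN⟩
    have hfm := hf.monotone
    obtain ⟨k1, hk1⟩ := stab ih (fun k => f k ⊔ Gam n) (fun a b hab => sup_le_sup_right (hfm hab) _)
      (fun k => ⟨le_sup_right, (hfN k).2.sup (Gam_fi n)⟩)
    obtain ⟨k0, hk0⟩ := fg_stab (QuotientGroup.mk' (Gam (n + 1)) '' (pi (n + 1) '' Cm n))
      ((pi_Cm_finite _ _).image _) (by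
        rintro x ⟨_, ⟨c, hc, rfl⟩, rfl⟩
        rw [SetLike.mem_coe, mem_center_iff]
        intro y
        obtain ⟨q, rfl⟩ := QuotientGroup.mk'_surjective _ y
        exact (central (Gam_fi n _ _ (Cm_sub n hc)) q).symm)
      (fun k => (f k).map (QuotientGroup.mk' (Gam (n + 1))))
      (fun a b hab => Subgroup.map_mono (hfm hab))
    have h2 : ∀ m, k0 ≤ m → ∀ w ∈ Gam n, w ∈ f m → w ∈ f k0 := by
      intro m hm w hw hwm
      obtain ⟨r, hr⟩ := exists_pi w
      apply inf_V_le (hfN k0).2 (hfN k0).1 (Finset.range r) w hw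
      · rw [mem_V]
        intro φ
        have h3 : φ w ∈ closure (Cm n) ⊔ Gam (n + 1) := gen n (Gam_fi n _ _ hw)
        obtain ⟨a, ha, b, hb, hab⟩ := (mem_sup_fi (Gam_fi (n + 1))).1 h3
        have h4 : QuotientGroup.mk' (Gam (n + 1)) (pi (n + 1) (φ w)) =
            QuotientGroup.mk' (Gam (n + 1)) (pi (n + 1) a) := by
          have h5 : QuotientGroup.mk' (Gam (n + 1)) (pi (n + 1) b) = 1 := by
            rw [QuotientGroup.mk'_apply, QuotientGroup.eq_one_iff]
            exact Gam_fi _ _ _ hb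
          rw [← hab, map_mul, map_mul, h5, mul_one]
        have h6 : QuotientGroup.mk' (Gam (n + 1)) (pi (n + 1) (φ w)) ∈
            closure (QuotientGroup.mk' (Gam (n + 1)) '' (pi (n + 1) '' Cm n)) := by
          rw [h4, ← MonoidHom.map_closure, ← MonoidHom.map_closure]
          exact mem_map_of_mem _ (mem_map_of_mem _ ha)
        have h7 := hk0 m hm _ h6 (mem_map_of_mem _ ((hfN m).2 _ _ ((hfN m).2 _ _ hwm)))
        obtain ⟨y, hy, hyy⟩ := h7
        have h8 : y⁻¹ * pi (n + 1) (φ w) ∈ Gam (n + 1) := QuotientGroup.eq.1 hyy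
        have := (f k0).mul_mem hy ((hfN k0).1 h8)
        rwa [mul_inv_cancel_left] at this
      · have : keep (Finset.range r) = pi r := by
          ext i
          simp [keep, pi]
        rw [this]
        exact hr r le_rfl
    have h3 : f (max k0 k1 + 1) ≤ f (max k0 k1) := by
      intro x hx
      have h4 : x ∈ f (max k0 k1 + 1) ⊔ Gam n := (le_sup_left : f (max k0 k1 + 1) ≤ _) hx
      have e1 := hk1 (max k0 k1 + 1) (le_trans (le_max_right _ _) (Nat.le_succ _))
      have e2 := hk1 (max k0 k1) (le_max_right _ _)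
      rw [e1, ← e2] at h4
      obtain ⟨a, ha, b, hb, rfl⟩ := (mem_sup_fi (Gam_fi n)).1 h4
      have ha' := hfm (Nat.le_succ (max k0 k1)) ha
      have hb' : b ∈ f (max k0 k1 + 1) := by
        have := (f (max k0 k1 + 1)).mul_mem ((f (max k0 k1 + 1)).inv_mem ha') hx
        rwa [inv_mul_cancel_left] at this
      have h5 := h2 _ (le_trans (le_max_left _ _) (Nat.le_succ _)) b hb hb'
      exact (f (max k0 k1)).mul_mem ha (hfm (le_max_left _ _) h5)
    exact absurd h3 (not_le_of_gt (hf (Nat.lt_succ_self _)))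

/-- a nilpotent group satisfies the laws in some term of the lower central series -/
theorem Gam_le_laws {G : Type} [Group G] (h : Group.IsNilpotent G) : ∃ n, Gam n ≤ laws G := by
  obtain ⟨n, hn⟩ := Subgroup.nilpotent_iff_lowerCentralSeries.1 h
  refine ⟨n, fun w hw => mem_laws.2 fun ψ => ?_⟩
  have h1 : ψ w ∈ (Gam n).map ψ := mem_map_of_mem ψ hw
  rw [Gam, Subgroup.map_lowerCentralSeries] at h1
  have h2 : ψ w ∈ (⊤ : Subgroup G).lowerCentralSeries n :=
    Subgroup.lowerCentralSeries_mono n le_top h1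
  rw [hn] at h2
  exact h2

end Pool.Agent.H643R2.VR
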