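import Mathlib
import Pool.Agent.H643R2.VR.Nil

/-! # Chains and cardinality -/

set_option autoImplicit false

namespace Pool.Agent.H643R2.VR

/-- fully invariant closure of a finite set together with `N` -/
def fcl (N : Subgroup (FreeGroup ℕ)) (A : Finset (FreeGroup ℕ)) : Subgroup (FreeGroup ℕ) :=
  sInf {L | FI L ∧ N ≤ L ∧ (A : Set (FreeGroup ℕ)) ⊆ L}

theorem fcl_fi (N : Subgroup (FreeGroup ℕ)) (A : Finset (FreeGroup ℕ)) : FI (fcl N A) := by
  intro φ x hx
  rw [fcl, Subgroup.mem_sInf] at hx ⊢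
  exact fun L hL => hL.1 φ x (hx L hL)

theorem le_fcl (N : Subgroup (FreeGroup ℕ)) (A : Finset (FreeGroup ℕ)) : N ≤ fcl N A := by
  intro x hx
  rw [fcl, Subgroup.mem_sInf]
  exact fun L hL => hL.2.1 hx

theorem sub_fcl (N : Subgroup (FreeGroup ℕ)) (A : Finset (FreeGroup ℕ)) :
    (A : Set (FreeGroup ℕ)) ⊆ fcl N A := by
  intro x hx
  rw [SetLike.mem_coe, fcl, Subgroup.mem_sInf]
  exact fun L hL => hL.2.2 hx

theorem fcl_le {N : Subgroup (FreeGroup ℕ)} {A : Finset (FreeGroup ℕ)}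
    {L : Subgroup (FreeGroup ℕ)} (h1 : FI L) (h2 : N ≤ L) (h3 : (A : Set (FreeGroup ℕ)) ⊆ L) :
    fcl N A ≤ L := by
  intro x hx
  rw [fcl, Subgroup.mem_sInf] at hx
  exact hx L ⟨h1, h2, h3⟩

theorem exists_fcl {N : Subgroup (FreeGroup ℕ)} (h : ¬ HasChain N) {M : Subgroup (FreeGroup ℕ)}
    (hM : FI M) (hNM : N ≤ M) : ∃ A, fcl N A = M := by
  classical
  by_contra hcon
  push Not at hcon
  have hx : ∀ A : {A : Finset (FreeGroup ℕ) // (A : Set (FreeGroup ℕ)) ⊆ M},
      ∃ x ∈ M, x ∉ fcl N A.1 := by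
    intro A
    by_contra h2
    push Not at h2
    exact hcon A.1 (le_antisymm (fcl_le hM hNM A.2) h2)
  choose x hx1 hx2 using hx
  have hins : ∀ A : {A : Finset (FreeGroup ℕ) // (A : Set (FreeGroup ℕ)) ⊆ M},
      ((insert (x A) A.1 : Finset (FreeGroup ℕ)) : Set (FreeGroup ℕ)) ⊆ M := by
    intro A y hy
    rw [Finset.coe_insert] at hy
    rcases hy with rfl | hy
    · exact hx1 A
    · exact A.2 hy
  let st : ℕ → {A : Finset (FreeGroup ℕ) // (A : Set (FreeGroup ℕ)) ⊆ M} :=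
    fun k => Nat.rec ⟨∅, by simp⟩ (fun _ A => ⟨insert (x A) A.1, hins A⟩) k
  have hst : ∀ k, (st (k + 1)).1 = insert (x (st k)) (st k).1 := fun k => rfl
  apply h
  refine ⟨fun k => fcl N (st k).1, strictMono_nat_of_lt_succ ?_, fun k => ⟨le_fcl _ _, fcl_fi _ _⟩⟩
  intro k
  apply lt_of_le_of_ne
  · apply fcl_le (fcl_fi _ _) (le_fcl _ _)
    intro y hy
    apply sub_fcl
    rw [hst, Finset.coe_insert]
    exact Or.inr hy
  · intro he
    apply hx2 (st k)
    have he' : fcl N (st k).1 = fcl N (st (k + 1)).1 := he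
    rw [he']
    apply sub_fcl
    rw [hst, Finset.coe_insert]
    exact Or.inl rfl

theorem countable_of_not_hasChain {N : Subgroup (FreeGroup ℕ)} (h : ¬ HasChain N) :
    {M : Subgroup (FreeGroup ℕ) | FI M ∧ N ≤ M}.Countable := by
  have h2 : Countable (FreeGroup ℕ) := (FreeGroup.toWord_injective (α := ℕ)).countable
  apply (Set.countable_range (fcl N)).mono
  intro M hM
  exact exists_fcl h hM.1 hM.2

/-- the rank `s` parts of a locally nilpotent variety have no infinite descending chain -/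
theorem not_hasChain_V {N : Subgroup (FreeGroup ℕ)} (hN : FI N)
    (hnil : ∀ (G : Type) [Group G], Group.FG G → N ≤ laws G → Group.IsNilpotent G) (s : ℕ) :
    ¬ HasChain (V s N) := by
  obtain ⟨G, hG, hfg, hl⟩ := V_eq_laws hN s
  have h1 : Group.IsNilpotent G := hnil G hfg (by rw [hl]; exact le_V hN)
  obtain ⟨n, hn⟩ := Gam_le_laws h1
  rw [hl] at hn
  rintro ⟨f, hf, hfN⟩
  exact not_hasChain_Gam n ⟨f, hf, fun k => ⟨hn.trans (hfN k).1, (hfN k).2⟩⟩

end Pool.Agent.H643R2.VR
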