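import Mathlib
import Pool.Agent.H643R2.VR.Cnt

/-! # Independent systems of laws -/

set_option autoImplicit false

namespace Pool.Agent.H643R2.VR

/-- consequences of the laws in `N` and `S` -/
def cons (N : Subgroup (FreeGroup ℕ)) (S : Set (FreeGroup ℕ)) : Subgroup (FreeGroup ℕ) :=
  sInf {L | FI L ∧ N ≤ L ∧ S ⊆ L}

/-- minimum condition on subvarieties -/
def P1 (N : Subgroup (FreeGroup ℕ)) : Prop :=
  ¬ ∃ f : ℕ → Subgroup (FreeGroup ℕ), StrictMono f ∧ ∀ n, N ≤ f n ∧ FI (f n)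

/-- countably many subvarieties -/
def P2 (N : Subgroup (FreeGroup ℕ)) : Prop :=
  {M : Subgroup (FreeGroup ℕ) | FI M ∧ N ≤ M}.Countable

/-- no infinite independent system of laws -/
def P3 (N : Subgroup (FreeGroup ℕ)) : Prop :=
  ¬ ∃ S : Set (FreeGroup ℕ), S.Infinite ∧ ∀ σ ∈ S, σ ∉ cons N (S \ {σ})

theorem cons_fi (N : Subgroup (FreeGroup ℕ)) (A : Set (FreeGroup ℕ)) : FI (cons N A) := by
  intro φ x hx
  rw [cons, Subgroup.mem_sInf] at hx ⊢
  exact fun L hL => hL.1 φ x (hx L hL)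

theorem le_cons (N : Subgroup (FreeGroup ℕ)) (A : Set (FreeGroup ℕ)) : N ≤ cons N A := by
  intro x hx
  rw [cons, Subgroup.mem_sInf]
  exact fun L hL => hL.2.1 hx

theorem sub_cons (N : Subgroup (FreeGroup ℕ)) (A : Set (FreeGroup ℕ)) : A ⊆ cons N A := by
  intro x hx
  rw [SetLike.mem_coe, cons, Subgroup.mem_sInf]
  exact fun L hL => hL.2.2 hx

theorem cons_le {N : Subgroup (FreeGroup ℕ)} {A : Set (FreeGroup ℕ)}
    {L : Subgroup (FreeGroup ℕ)} (h1 : FI L) (h2 : N ≤ L) (h3 : A ⊆ L) : cons N A ≤ L := by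
  intro x hx
  rw [cons, Subgroup.mem_sInf] at hx
  exact hx L ⟨h1, h2, h3⟩

theorem cons_mono {N N' : Subgroup (FreeGroup ℕ)} {A A' : Set (FreeGroup ℕ)} (h : N ≤ N')
    (hA : A ⊆ A') : cons N A ≤ cons N' A' :=
  cons_le (cons_fi _ _) (h.trans (le_cons _ _)) (hA.trans (sub_cons _ _))

theorem P3.mono {N N' : Subgroup (FreeGroup ℕ)} (h : N ≤ N') (hP : P3 N) : P3 N' := by
  rintro ⟨S, hS, hS2⟩
  exact hP ⟨S, hS, fun σ hσ h2 => hS2 σ hσ (cons_mono h (le_refl _) h2)⟩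

theorem P2.mono {N N' : Subgroup (FreeGroup ℕ)} (h : N ≤ N') (hP : P2 N) : P2 N' := by
  apply Set.Countable.mono _ hP
  intro M hM
  exact ⟨hM.1, h.trans hM.2⟩

theorem P1_P2 {N : Subgroup (FreeGroup ℕ)} (h : P1 N) : P2 N := countable_of_not_hasChain h

theorem P2_P3 {N : Subgroup (FreeGroup ℕ)} (h : P2 N) : P3 N := by
  rintro ⟨S, hS, hS2⟩
  let e := hS.natEmbedding
  let g : Set ℕ → {M : Subgroup (FreeGroup ℕ) // FI M ∧ N ≤ M} := fun T =>
    ⟨cons N ((fun j => (e j : FreeGroup ℕ)) '' T), cons_fi _ _, le_cons _ _⟩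
  have key : ∀ T : Set ℕ, ∀ j, (e j : FreeGroup ℕ) ∈ (g T).1 ↔ j ∈ T := by
    intro T j
    constructor
    · intro h1
      by_contra hj
      apply hS2 (e j) (e j).2
      apply cons_mono (le_refl N) _ h1
      rintro x ⟨i, hi, rfl⟩
      refine ⟨(e i).2, ?_⟩
      intro h2
      have h3 : e i = e j := Subtype.ext h2
      have h4 : i = j := e.injective h3
      exact hj (h4 ▸ hi)
    · intro hj
      exact sub_cons _ _ ⟨j, hj, rfl⟩
  have hg : Function.Injective g := by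
    intro T T' hTT
    ext j
    rw [← key T j, ← key T' j, hTT]
  have hcc : Countable {M : Subgroup (FreeGroup ℕ) // FI M ∧ N ≤ M} := h.to_subtype
  have : Countable (Set ℕ) := hg.countable
  obtain ⟨e', he⟩ := exists_surjective_nat (Set ℕ)
  exact Function.cantor_surjective e' he

theorem exists_rank' {N : Subgroup (FreeGroup ℕ)} (h3 : P3 N) (h1 : ¬ P1 N) :
    ∃ s, HasChain (V s N) := by
  by_contra hcon
  push Not at hcon
  obtain ⟨M, w, hM, hw⟩ := family (not_not.1 h1) hcon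
  apply h3
  have hinj : Function.Injective w := by
    intro i j hij
    by_contra hne
    have a := (hw i j).2 hne
    rw [← hij] at a
    exact (hw i i).1 a rfl
  refine ⟨Set.range w, Set.infinite_range_of_injective hinj, ?_⟩
  rintro σ ⟨i, rfl⟩ hσ
  have h2 : cons N (Set.range w \ {w i}) ≤ M i := by
    apply cons_le (hM i).1 (hM i).2
    rintro x ⟨⟨j, rfl⟩, hj⟩
    apply (hw i j).2
    rintro rfl
    exact hj rfl
  exact (hw i i).1 (h2 hσ) rfl

theorem reduce {N : Subgroup (FreeGroup ℕ)} (hN : FI N) (h3 : P3 N) (h1 : ¬ P1 N) :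
    ∃ (G : Type) (_ : Group G), Group.FG G ∧ N ≤ laws G ∧ ¬ P1 (laws G) := by
  obtain ⟨s, hs⟩ := exists_rank' h3 h1
  obtain ⟨G, hG, hfg, hl⟩ := V_eq_laws hN s
  refine ⟨G, hG, hfg, ?_, ?_⟩
  · rw [hl]
    exact le_V hN
  · rw [hl]
    exact not_not.2 hs

end Pool.Agent.H643R2.VR
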